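import Pool.Agent.Lib.H2G.A4

set_option autoImplicit false

namespace Pool.Agent.Results.MP_cf7ece_co.ClassTwoReduction

open Pool.Agent.Lib.H2G

/-- Goldberg's odd-girth bound in the range `3 ≤ D ≤ g`, `g = 2 t + 3` odd: for every finite loopless
multigraph `H` of maximum degree `D`, `m ≤ 1` and every vertex `x` with `deg x + m ≤ D` the reduced graph
`red H t (D - 1) m x` (every edge of `H` is replaced by a path of length `g` whose second, fourth, ...
edges have multiplicity `D - 1`, a cycle of length `g` is added, and `m` edges join it to `x`) has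
maximum degree `D`, odd girth `g` and chromatic index `D` or `D + 1`, it is connected if `m = 1` and `H`
is connected, and it attains the bound if and only if the edges of `H` cannot be properly coloured with
`D` colours. -/
theorem result (t D m : ℕ) (hD : 3 ≤ D) (hDg : D ≤ 2 * t + 3) (hm : m ≤ 1) (V E : Type)
    [Finite V] [Finite E] (H : MG V E) (hH : H.MaxDeg D) (x : V) (hx : H.deg x + m ≤ D) :
    Nat.card (RV V E t) = Nat.card V + (2 * t + 2) * Nat.card E + (2 * t + 3) ∧
    Nat.card (RE E t (D - 1) m) = (t + 2 + (t + 1) * (D - 1)) * Nat.card E + (2 * t + 3) + m ∧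
    (m = 1 → H.Connected → (red H t (D - 1) m x).Connected) ∧
    (red H t (D - 1) m x).MaxDeg D ∧
    (red H t (D - 1) m x).OddGirth (2 * t + 3) ∧
    ((red H t (D - 1) m x).chromIndex = D ∨ (red H t (D - 1) m x).chromIndex = D + 1) ∧
    ((red H t (D - 1) m x).Attains ↔ ¬ H.Colorable D) :=
  reduction t D m hD hDg hm V E H hH x hx

end Pool.Agent.Results.MP_cf7ece_co.ClassTwoReduction
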